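import Pool.Agent.Lib_helper30.EvenHomeo.Defs2

/-!
# AKHITS: hitting for the slowed map from hitting for the map `L`
-/

open Set Metric Topology

namespace Pool.Agent.EvenHomeo

open Pool.Agent.MinHomeo (RotChart)

section AKHitsSec

variable {X : Type} [NormedAddCommGroup X] [NormedSpace ℝ X] {Y B : Type} [MetricSpace Y]
  [MetricSpace B]

theorem akHits_iter_fst (b : Base X Y B) (lam α : ℝ) (k : ℕ) (p : B × T) :
    ((⇑(b.L lam α))^[k] p).1 = b.R (k * α) p.1 := by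
  induction k with
  | zero => simp [b.R_zero]
  | succ k ih =>
    have h : α + (k : ℝ) * α = ((k + 1 : ℕ) : ℝ) * α := by
      push_cast
      ring
    rw [Function.iterate_succ_apply', b.L_fst, ih, ← b.R_add, h]

theorem akHits_iter_symm (b : Base X Y B) (lam α : ℝ) (k : ℕ) (p : B × T) :
    (⇑(b.L lam α))^[k] ((⇑(b.L lam α).symm)^[k] p) = p := by
  have h : Function.LeftInverse (⇑(b.L lam α)) (⇑(b.L lam α).symm) := (b.L lam α).apply_symm_apply
  exact h.iterate k p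

/-- the two base points of a forward and a backward visit -/
theorem akHits_base (b : Base X Y B) {lam α δ : ℝ} {N : ℕ} (hδ' : δ ≤ 1 / 20)
    (hirr : ∀ j : ℕ, 1 ≤ j → j ≤ 2 * N + 2 → 2 * δ < |cr (α * j)|) {i j : ℕ} (hi : i < N)
    (hj : j < N) {p : B × T} (h1 : (⇑(b.L lam α).symm)^[i] p ∈ b.Wt lam α δ)
    (h2 : (⇑(b.L lam α))^[j] p ∈ b.Wm lam α δ) : i = 0 ∧ j = 0 := by
  obtain ⟨y, θ, σ, υ, he, hs1, hs2, hp1⟩ := h1
  obtain ⟨y', θ', σ', υ', he', hs1', hs2', hp2⟩ := h2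
  have hc := (abs_cr_le_ee _ _ _).trans he
  have hc' := (abs_cr_le_ee _ _ _).trans he'
  have h3 : (⇑(b.L lam α))^[j + i] ((⇑(b.L lam α).symm)^[i] p) = (⇑(b.L lam α))^[j] p := by
    rw [Function.iterate_add_apply, akHits_iter_symm]
  have h4 : b.R (((j + i : ℕ) : ℝ) * α) (b.β (y, σ, θ + α * σ)) = b.β (y', σ', θ' + α * σ') := by
    have h5 := congrArg Prod.fst h3
    rw [akHits_iter_fst, hp1, hp2, b.ta_fst, b.ta_fst] at h5
    exact h5
  rw [b.R_β, b.β_eq] at h4
  obtain ⟨-, ⟨l, hl⟩, ⟨m, hm⟩⟩ := h4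
  have hl1 : -3 < l := by
    have : (-3 : ℝ) < l := by linarith
    exact_mod_cast this
  have hl2 : l < 1 := by
    have : (l : ℝ) < 1 := by linarith
    exact_mod_cast this
  set n : ℤ := (j + i : ℕ) - l with hn
  have hn0 : 0 ≤ n := by omega
  have h6 : α * ((n.toNat : ℕ) : ℝ) = θ' - θ - m := by
    have h7 : ((n.toNat : ℕ) : ℝ) = (n : ℝ) := by
      have := Int.toNat_of_nonneg hn0
      exact_mod_cast congrArg (fun z : ℤ => (z : ℝ)) this
    rw [h7, hn]
    push_cast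
    have h8 : (l : ℝ) = σ' - σ := by linarith
    rw [h8]
    push_cast at hm
    linarith
  have h9 : |cr (α * ((n.toNat : ℕ) : ℝ))| ≤ 2 * δ := by
    rw [h6, sub_eq_add_neg (θ' - θ) (m : ℝ)]
    have h10 := cr_add_int (θ' - θ) (-m)
    push_cast at h10
    rw [h10]
    have := abs_cr_sub θ' θ
    linarith
  by_contra hne
  have h11 : 1 ≤ n.toNat := by omega
  have h12 : n.toNat ≤ 2 * N + 2 := by omega
  exact absurd (hirr _ h11 h12) (not_lt.2 h9)

variable {b : Base X Y B} {lam : ℝ} {M : Type} [MetricSpace M] {e : M}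

theorem akHits_mem_image {C : Coord b lam M e} {S : Set (B × T)} (hS : b.E ⊆ S) (p : B × T) :
    C.h p ∈ C.h '' S ↔ p ∈ S := by
  constructor
  · rintro ⟨p', hp', h⟩
    rcases C.inj _ _ h with h1 | h1
    · exact h1 ▸ hp'
    · exact hS ((C.hE _).1 (h ▸ h1))
  · exact fun h => ⟨p, h, rfl⟩

theorem akHits_fwd {C : Coord b lam M e} {α δ : ℝ} {f : M ≃ₜ M}
    (hf : IsFrozen C α δ f) (x : M) : f x ∈ C.W α δ ↔ x ∈ C.h '' b.Wm lam α δ := by
  obtain ⟨-, -, -, hf4, hf5⟩ := hf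
  constructor
  · rintro ⟨p, hp, h⟩
    have := hf5 p hp
    rw [h, f.symm_apply_apply] at this
    exact this
  · rintro ⟨p, hp, rfl⟩
    exact hf4 p hp

/-- either the orbit is free, or there is a first visit -/
theorem akHits_dich (P : ℕ → Prop) (a : ℕ) : (∀ j < a, ¬ P j) ∨ ∃ j < a, P j ∧ ∀ i < j, ¬ P i := by
  classical
  by_cases h : ∃ j < a, P j
  · right
    have h' : ∃ j, P j := ⟨h.choose, h.choose_spec.2⟩
    refine ⟨Nat.find h', ?_, Nat.find_spec h', fun i hi => Nat.find_min h' hi⟩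
    exact lt_of_le_of_lt (Nat.find_min' h' h.choose_spec.2) h.choose_spec.1
  · left
    intro j hj hP
    exact h ⟨j, hj, hP⟩

end AKHitsSec

variable {X : Type} [NormedAddCommGroup X] [NormedSpace ℝ X] {Y B : Type} [MetricSpace Y]
  [MetricSpace B] {M : Type} [MetricSpace M]

theorem akHits (b : Base X Y B) (e : M) : AKHits_Stmt b M e := by
  intro lam α δ C f N V U hlam hlam' hα hα' hδ hδ' hf hirr hVU hV x hx
  have hEt : b.E ⊆ b.Wt lam α δ := b.E_subset_tube lam α hδ.le (by linarith) (by linarith)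
  have hEm : b.E ⊆ b.Wm lam α δ := b.E_subset_tube lam α hδ.le (by linarith) (by linarith)
  obtain ⟨p, rfl⟩ := C.surj x
  have hW : ∀ p, C.h p ∈ C.W α δ ↔ p ∈ b.Wt lam α δ := fun p => akHits_mem_image hEt p
  have hfW : ∀ p, f (C.h p) ∈ C.W α δ ↔ p ∈ b.Wm lam α δ := fun p =>
    (akHits_fwd hf _).trans (akHits_mem_image hEm p)
  have hf2 := hf.2.1
  have hf3 := hf.2.2.1
  obtain ⟨⟨a, ha, haV⟩, ⟨c, hc, hcV⟩⟩ := hV p
  -- forward orbit
  have fwd : ∀ n : ℕ, (∀ j < n, (⇑(b.L lam α))^[j] p ∉ b.Wm lam α δ) → ∀ j ≤ n,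
      (⇑f)^[j] (C.h p) = C.h ((⇑(b.L lam α))^[j] p) := by
    intro n hn j
    induction j with
    | zero => intro _; rfl
    | succ j ih =>
      intro hj
      rw [Function.iterate_succ_apply', Function.iterate_succ_apply', ih (by omega),
        hf2 _ (hn j (by omega))]
  have bwd : ∀ n : ℕ, (∀ j < n, (⇑(b.L lam α).symm)^[j] p ∉ b.Wt lam α δ) → ∀ j ≤ n,
      (⇑f.symm)^[j] (C.h p) = C.h ((⇑(b.L lam α).symm)^[j] p) := by
    intro n hn j
    induction j with
    | zero => intro _; rfl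
    | succ j ih =>
      intro hj
      rw [Function.iterate_succ_apply', Function.iterate_succ_apply', ih (by omega),
        hf3 _ (hn j (by omega))]
  rcases akHits_dich (fun j => (⇑(b.L lam α))^[j] p ∈ b.Wm lam α δ) a with h1 | ⟨j, hj, hjW, hj'⟩
  · left
    have h2 := fwd a h1
    refine ⟨a, ha, ?_, ?_⟩
    · rw [h2 a le_rfl]
      exact hVU _ haV
    · intro j hj
      rw [h2 j hj.le, hfW]
      exact h1 j hj
  · rcases akHits_dich (fun j => (⇑(b.L lam α).symm)^[j] p ∈ b.Wt lam α δ) c with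
      h3 | ⟨i, hi, hiW, hi'⟩
    · right
      have h2 := bwd c h3
      refine ⟨c, hc, ?_, ?_⟩
      · rw [h2 c le_rfl]
        exact hVU _ hcV
      · intro j hj
        rw [h2 j hj.le, hW]
        exact h3 j hj
    · exfalso
      obtain ⟨rfl, rfl⟩ := akHits_base b hδ' hirr (by omega : i < N) (by omega : j < N) hiW hjW
      exact hx ⟨(hW p).2 hiW, (hfW p).2 hjW⟩

end Pool.Agent.EvenHomeo
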